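import Pool.Agent.H48.RN.Stmts2

/-!
# Project RN: module HGL (the Galois group is `H`)
-/

set_option autoImplicit false
set_option linter.unusedSectionVars false

namespace Pool.RN

open Polynomial

section HGL

variable {F k : Type} [Field F] [Fintype F] [Field k] [Algebra F k]

theorem HGL_mem (Y : (EE k)[X]) (i : ℕ) : Y.coeff i ∈ LL F Y :=
  IntermediateField.subset_adjoin _ _ ⟨i, rfl⟩

/-- the embedding of `F` into `LL` -/
noncomputable def HGL_phi (Y : (EE k)[X]) : F →+* LL F Y :=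
  (algebraMap (KK F k) (LL F Y)).comp (algebraMap F (KK F k))

/-- the Frobenius of `LL` -/
noncomputable def HGL_fr (Y : (EE k)[X]) : LL F Y →+* LL F Y :=
  letI : Algebra F (LL F Y) := (HGL_phi Y).toAlgebra
  (FiniteField.frobeniusAlgHom F (LL F Y)).toRingHom

theorem HGL_fr_apply (Y : (EE k)[X]) (z : LL F Y) : HGL_fr Y z = z ^ Fintype.card F := rfl

/-- `x` as an element of `KK` -/
noncomputable def HGL_x (F k : Type) [Fintype F] [Field k] : KK F k :=
  ⟨xx F k, IntermediateField.mem_adjoin_simple_self k _⟩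

theorem HGL_lift (Y : (EE k)[X]) :
    ∃ YL : (LL F Y)[X], YL.map (algebraMap (LL F Y) (EE k)) = Y := by
  have h : Y ∈ Polynomial.lifts (algebraMap (LL F Y) (EE k)) := by
    rw [Polynomial.lifts_iff_coeff_lifts]
    intro n
    exact ⟨⟨Y.coeff n, HGL_mem Y n⟩, rfl⟩
  exact (Polynomial.mem_lifts _).1 h

/-- the equation over `LL` -/
theorem HGL_eqL {M : F[X]} (hM : M.Monic) {Y : (EE k)[X]} (hY : IsSol M (xx F k) Y)
    {YL : (LL F Y)[X]} (hYL : YL.map (algebraMap (LL F Y) (EE k)) = Y) :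
    M.map (HGL_phi Y) ∣ YL.map (HGL_fr Y) - (X - C (algebraMap (KK F k) (LL F Y) (HGL_x F k))) * YL := by
  rw [← Polynomial.map_dvd_map (algebraMap (LL F Y) (EE k)) (algebraMap (LL F Y) (EE k)).injective
    (hM.map _)]
  have e1 : (M.map (HGL_phi Y)).map (algebraMap (LL F Y) (EE k)) = M.map (algebraMap F (EE k)) := by
    rw [Polynomial.map_map]; rfl
  have e2 : (YL.map (HGL_fr Y) - (X - C (algebraMap (KK F k) (LL F Y) (HGL_x F k))) * YL).map
      (algebraMap (LL F Y) (EE k)) = tw F Y - (X - C (xx F k)) * Y := by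
    rw [Polynomial.map_sub, Polynomial.map_mul, Polynomial.map_sub, Polynomial.map_X,
      Polynomial.map_C, hYL, Polynomial.map_map]
    have e3 : YL.map ((algebraMap (LL F Y) (EE k)).comp (HGL_fr Y)) = tw F Y := by
      unfold tw
      conv_rhs => rw [← hYL, Polynomial.map_map]
      congr 1
    rw [e3]
    rfl
  rw [e1, e2]
  exact hY.eq

/-- automorphisms move `Y` to another solution -/
theorem HGL_move {M : F[X]} (hM : M.Monic) {Y : (EE k)[X]} (hY : IsSol M (xx F k) Y)
    {YL : (LL F Y)[X]} (hYL : YL.map (algebraMap (LL F Y) (EE k)) = Y)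
    (τ : LL F Y ≃ₐ[KK F k] LL F Y) :
    IsSol M (xx F k) ((YL.map (τ : LL F Y →+* LL F Y)).map (algebraMap (LL F Y) (EE k))) := by
  have hτφ : (τ : LL F Y →+* LL F Y).comp (HGL_phi Y) = HGL_phi Y := by
    ext a
    exact congrArg _ (τ.commutes _)
  have hMM : (M.map (HGL_phi Y)).map (algebraMap (LL F Y) (EE k)) = M.map (algebraMap F (EE k)) := by
    rw [Polynomial.map_map]; rfl
  refine ⟨?_, ?_, ?_⟩
  · have h1 : YL.degree = Y.degree := by
      conv_rhs => rw [← hYL]
      rw [Polynomial.degree_map]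
    rw [Polynomial.degree_map, Polynomial.degree_map, h1]
    exact hY.deg
  · have h1 : IsCoprime YL (M.map (HGL_phi Y)) := by
      rw [← Polynomial.isCoprime_map (algebraMap (LL F Y) (EE k)), hYL, hMM]
      exact hY.cop
    have h2 : IsCoprime (YL.map (τ : LL F Y →+* LL F Y))
        ((M.map (HGL_phi Y)).map (τ : LL F Y →+* LL F Y)) :=
      (Polynomial.isCoprime_map _).2 h1
    rw [Polynomial.map_map, hτφ] at h2
    have h3 := (Polynomial.isCoprime_map (algebraMap (LL F Y) (EE k))).2 h2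
    rwa [hMM] at h3
  · have h1 := HGL_eqL hM hY hYL
    have h2 := Polynomial.map_dvd (τ : LL F Y →+* LL F Y) h1
    have h3 := Polynomial.map_dvd (algebraMap (LL F Y) (EE k)) h2
    rw [Polynomial.map_map (HGL_phi Y), hτφ, hMM] at h3
    have e2 : (((YL.map (HGL_fr Y) - (X - C (algebraMap (KK F k) (LL F Y) (HGL_x F k))) * YL).map
        (τ : LL F Y →+* LL F Y))).map (algebraMap (LL F Y) (EE k)) =
        tw F ((YL.map (τ : LL F Y →+* LL F Y)).map (algebraMap (LL F Y) (EE k))) -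
        (X - C (xx F k)) * ((YL.map (τ : LL F Y →+* LL F Y)).map (algebraMap (LL F Y) (EE k))) := by
      simp only [Polynomial.map_sub, Polynomial.map_mul, Polynomial.map_X, Polynomial.map_C]
      have e4 : (τ : LL F Y →+* LL F Y) (algebraMap (KK F k) (LL F Y) (HGL_x F k)) =
          algebraMap (KK F k) (LL F Y) (HGL_x F k) := τ.commutes _
      rw [e4]
      have e3 : ((YL.map (HGL_fr Y)).map (τ : LL F Y →+* LL F Y)).map
          (algebraMap (LL F Y) (EE k)) = tw F ((YL.map (τ : LL F Y →+* LL F Y)).map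
          (algebraMap (LL F Y) (EE k))) := by
        unfold tw
        rw [Polynomial.map_map, Polynomial.map_map, Polynomial.map_map, Polynomial.map_map]
        congr 1
        ext z
        simp only [RingHom.comp_apply, HGL_fr_apply, map_pow]
        rfl
      rw [e3]
      rfl
    rw [e2] at h3
    exact h3

/-- relations are preserved by automorphisms -/
theorem HGL_rel {m : ℕ} {Y : (EE k)[X]}
    {YL : (LL F Y)[X]} (hYL : YL.map (algebraMap (LL F Y) (EE k)) = Y)
    (τ : LL F Y ≃ₐ[KK F k] LL F Y) (P : PP k m) (hP : ev m (xx F k) Y P = 0) :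
    ev m (xx F k) ((YL.map (τ : LL F Y →+* LL F Y)).map (algebraMap (LL F Y) (EE k))) P = 0 := by
  set ψ : k →+* LL F Y := (algebraMap (KK F k) (LL F Y)).comp (algebraMap k (KK F k)) with hψ
  set pt : Option (Fin m) → LL F Y := fun o =>
    o.elim (algebraMap (KK F k) (LL F Y) (HGL_x F k)) (fun i => YL.coeff i) with hpt
  have h1 : algebraMap (LL F Y) (EE k) (MvPolynomial.eval₂ ψ pt P) = ev m (xx F k) Y P := by
    rw [MvPolynomial.hom_eval₂]
    unfold ev
    rw [MvPolynomial.aeval_def]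
    congr 1
    ext o
    cases o with
    | none => rfl
    | some i =>
      simp only [hpt, Option.elim]
      rw [← Polynomial.coeff_map, hYL]
  have h2 : MvPolynomial.eval₂ ψ pt P = 0 := by
    apply (algebraMap (LL F Y) (EE k)).injective
    rw [h1, hP, map_zero]
  have h3 : ((algebraMap (LL F Y) (EE k)).comp (τ : LL F Y →+* LL F Y))
      (MvPolynomial.eval₂ ψ pt P) = ev m (xx F k)
      ((YL.map (τ : LL F Y →+* LL F Y)).map (algebraMap (LL F Y) (EE k))) P := by
    rw [MvPolynomial.hom_eval₂]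
    unfold ev
    rw [MvPolynomial.aeval_def]
    have e5 : ((algebraMap (LL F Y) (EE k)).comp (τ : LL F Y →+* LL F Y)).comp ψ =
        algebraMap k (EE k) := by
      ext a
      have : τ (ψ a) = ψ a := τ.commutes _
      simp only [RingHom.comp_apply]
      exact congrArg (algebraMap (LL F Y) (EE k)) this
    rw [e5]
    congr 1
    ext o
    cases o with
    | none =>
      simp only [hpt, Option.elim, RingHom.comp_apply]
      exact congrArg (algebraMap (LL F Y) (EE k)) (τ.commutes _)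
    | some i =>
      simp only [hpt, Option.elim, RingHom.comp_apply, Polynomial.coeff_map]
  rw [← h3, h2, map_zero]

/-- clearing denominators -/
theorem HGL_clear {m : ℕ} (P : MvPolynomial (Fin m) (KK F k)) :
    ∃ (b : k[X]) (P' : PP k m), aeval (xx F k) b ≠ 0 ∧ ∀ z : (EE k)[X],
      aeval (xx F k) b * MvPolynomial.eval₂ (algebraMap (KK F k) (EE k))
        (fun i : Fin m => z.coeff i) P = ev m (xx F k) z P' := by
  have hx : ∀ (r : k[X]) (z : (EE k)[X]),
      ev m (xx F k) z (aeval (MvPolynomial.X none : PP k m) r) = aeval (xx F k) r := by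
    intro r z
    rw [← Polynomial.aeval_algHom_apply]
    congr 1
    unfold ev
    rw [MvPolynomial.aeval_X]
    rfl
  induction P using MvPolynomial.induction_on with
  | C c =>
    obtain ⟨r, s, hrs⟩ := (IntermediateField.mem_adjoin_simple_iff k (c : EE k)).1 c.2
    by_cases hs : aeval (xx F k) s = 0
    · refine ⟨1, 0, by simp, fun z => ?_⟩
      have hc : (c : EE k) = 0 := by rw [hrs, hs, div_zero]
      rw [MvPolynomial.eval₂_C, map_zero]
      have : algebraMap (KK F k) (EE k) c = 0 := hc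
      rw [this, mul_zero]
    · refine ⟨s, aeval (MvPolynomial.X none : PP k m) r, hs, fun z => ?_⟩
      rw [MvPolynomial.eval₂_C, hx]
      have : algebraMap (KK F k) (EE k) c = aeval (xx F k) r / aeval (xx F k) s := hrs
      rw [this]
      field_simp
  | add P Q hP hQ =>
    obtain ⟨b, P', hb, h1⟩ := hP
    obtain ⟨c, Q', hc, h2⟩ := hQ
    refine ⟨b * c, aeval (MvPolynomial.X none : PP k m) c * P' +
      aeval (MvPolynomial.X none : PP k m) b * Q', ?_, fun z => ?_⟩
    · rw [map_mul]; exact mul_ne_zero hb hc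
    · rw [map_add, map_mul, map_mul, map_mul, hx, hx, ← h1, ← h2, MvPolynomial.eval₂_add]
      ring
  | mul_X P i hP =>
    obtain ⟨b, P', hb, h1⟩ := hP
    refine ⟨b, P' * MvPolynomial.X (some i), hb, fun z => ?_⟩
    rw [map_mul, ← h1, MvPolynomial.eval₂_mul, MvPolynomial.eval₂_X]
    have : ev m (xx F k) z (MvPolynomial.X (some i) : PP k m) = z.coeff i := by
      unfold ev
      rw [MvPolynomial.aeval_X]
      rfl
    rw [this]
    ring

/-- `LL` is generated by the coordinates as an algebra -/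
theorem HGL_surj {M : F[X]} {Y : (EE k)[X]} (hdeg : Y.degree < M.degree)
    (hF : FiniteDimensional (KK F k) (LL F Y)) :
    Function.Surjective (MvPolynomial.aeval (R := KK F k)
      (fun i : Fin M.natDegree => (⟨Y.coeff i, HGL_mem Y i⟩ : LL F Y))) := by
  have halg : ∀ z ∈ {z | ∃ i, z = Y.coeff i}, IsAlgebraic (KK F k) z := by
    rintro z ⟨i, rfl⟩
    have h1 : IsAlgebraic (KK F k) (⟨Y.coeff i, HGL_mem Y i⟩ : LL F Y) :=
      Algebra.IsAlgebraic.isAlgebraic _
    exact h1.algebraMap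
  have h2 := IntermediateField.adjoin_toSubalgebra_of_isAlgebraic halg
  intro z
  have hz : (z : EE k) ∈ Algebra.adjoin (KK F k) {z | ∃ i, z = Y.coeff i} := by
    rw [← h2]; exact z.2
  have key : ∀ w ∈ Algebra.adjoin (KK F k) {z | ∃ i, z = Y.coeff i},
      ∃ P : MvPolynomial (Fin M.natDegree) (KK F k), ((MvPolynomial.aeval (R := KK F k)
      (fun i : Fin M.natDegree => (⟨Y.coeff i, HGL_mem Y i⟩ : LL F Y)) P : LL F Y) : EE k) = w := by
    intro w hw
    induction hw using Algebra.adjoin_induction with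
    | mem w hw =>
      obtain ⟨i, rfl⟩ := hw
      by_cases hi : i < M.natDegree
      · exact ⟨MvPolynomial.X ⟨i, hi⟩, by rw [MvPolynomial.aeval_X]⟩
      · refine ⟨0, ?_⟩
        rw [map_zero, Polynomial.coeff_eq_zero_of_degree_lt]
        · rfl
        · refine hdeg.trans_le ?_
          exact Polynomial.degree_le_of_natDegree_le (not_lt.1 hi)
    | algebraMap c => exact ⟨MvPolynomial.C c, by rw [MvPolynomial.aeval_C]; rfl⟩
    | add a b _ _ ha hb =>
      obtain ⟨P, hP⟩ := ha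
      obtain ⟨Q, hQ⟩ := hb
      refine ⟨P + Q, ?_⟩
      rw [map_add, ← hP, ← hQ]
      rfl
    | mul a b _ _ ha hb =>
      obtain ⟨P, hP⟩ := ha
      obtain ⟨Q, hQ⟩ := hb
      refine ⟨P * Q, ?_⟩
      rw [map_mul, ← hP, ← hQ]
      rfl
  obtain ⟨P, hP⟩ := key _ hz
  exact ⟨P, Subtype.ext hP⟩

/-- the coordinates of `g Y` lie in `LL` -/
theorem HGL_act_mem {M : F[X]} (hM : M.Monic) (hm : 1 ≤ M.natDegree) {Y : (EE k)[X]}
    (hEVA : S_EVA F k) (hdeg : Y.degree < M.degree) (g : F[X]) (i : ℕ) :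
    (act M g Y).coeff i ∈ LL F Y := by
  obtain ⟨h1, h2, -⟩ := hEVA M hM hm (EE k) (xx F k) Y g hdeg
  by_cases hi : i < M.natDegree
  · rw [h2 i hi]
    refine sum_mem fun j _ => mul_mem ?_ (HGL_mem Y j)
    exact ((HGL_phi Y (ag M g i j)) : LL F Y).2
  · rw [Polynomial.coeff_eq_zero_of_degree_lt]
    · exact zero_mem _
    · exact h1.trans_le (Polynomial.degree_le_of_natDegree_le (not_lt.1 hi))

/-- elements of `H` give automorphisms -/
theorem HGL_aut {M : F[X]} (hM : M.Monic) (hm : 1 ≤ M.natDegree) {Y : (EE k)[X]}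
    (hEVA : S_EVA F k) (hdeg : Y.degree < M.degree)
    (hF : FiniteDimensional (KK F k) (LL F Y)) {g : F[X]} (hg : g ∈ HH M Y) :
    ∃ τ : LL F Y ≃ₐ[KK F k] LL F Y, ∀ i (hi : Y.coeff i ∈ LL F Y),
      ((τ ⟨Y.coeff i, hi⟩ : LL F Y) : EE k) = (act M g Y).coeff i := by
  have hInH := mem_HH.1 hg
  set φ₁ := (MvPolynomial.aeval (R := KK F k)
      (fun i : Fin M.natDegree => (⟨Y.coeff i, HGL_mem Y i⟩ : LL F Y))) with hφ₁
  set φ₂ := (MvPolynomial.aeval (R := KK F k)
      (fun i : Fin M.natDegree =>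
        (⟨(act M g Y).coeff i, HGL_act_mem hM hm hEVA hdeg g i⟩ : LL F Y))) with hφ₂
  have hsurj : Function.Surjective φ₁ := HGL_surj hdeg hF
  have hval : ∀ (Z : (EE k)[X]) (hZ : ∀ i, Z.coeff i ∈ LL F Y)
      (P : MvPolynomial (Fin M.natDegree) (KK F k)),
      ((MvPolynomial.aeval (R := KK F k) (fun i : Fin M.natDegree =>
        (⟨Z.coeff i, hZ i⟩ : LL F Y)) P : LL F Y) : EE k) =
      MvPolynomial.eval₂ (algebraMap (KK F k) (EE k)) (fun i : Fin M.natDegree => Z.coeff i) P := by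
    intro Z hZ P
    rw [MvPolynomial.aeval_def]
    have := MvPolynomial.hom_eval₂ P (algebraMap (KK F k) (LL F Y)) (algebraMap (LL F Y) (EE k))
      (fun i : Fin M.natDegree => (⟨Z.coeff i, hZ i⟩ : LL F Y))
    exact this
  have hker : ∀ P, φ₁ P = 0 → φ₂ P = 0 := by
    intro P hP
    obtain ⟨b, P', hb, hcl⟩ := HGL_clear (F := F) (k := k) P
    have h1 : ev M.natDegree (xx F k) Y P' = 0 := by
      rw [← hcl Y, ← hval Y (HGL_mem Y) P]
      have : ((φ₁ P : LL F Y) : EE k) = 0 := by rw [hP]; rfl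
      rw [← hφ₁, this, mul_zero]
    have h2 := hInH.2.2 P' h1
    rw [← hcl (act M g Y), ← hval (act M g Y) (HGL_act_mem hM hm hEVA hdeg g) P] at h2
    have h3 := (mul_eq_zero.1 h2).resolve_left hb
    exact Subtype.ext h3
  have hker' : ∀ P ∈ RingHom.ker φ₁, φ₂ P = 0 := fun P hP => hker P hP
  let e₁ := Ideal.quotientKerAlgEquivOfSurjective hsurj
  let σ : LL F Y →ₐ[KK F k] LL F Y := (Ideal.Quotient.liftₐ (RingHom.ker φ₁) φ₂ hker').comp
    (e₁.symm : LL F Y →ₐ[KK F k] _)
  have hσ : ∀ P, σ (φ₁ P) = φ₂ P := by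
    intro P
    have h4 : e₁.symm (φ₁ P) = Ideal.Quotient.mk (RingHom.ker φ₁) P := by
      rw [AlgEquiv.symm_apply_eq]
      rfl
    show (Ideal.Quotient.liftₐ (RingHom.ker φ₁) φ₂ hker') (e₁.symm (φ₁ P)) = φ₂ P
    rw [h4]
    rfl
  have hbij : Function.Bijective σ := Algebra.IsAlgebraic.algHom_bijective σ
  refine ⟨AlgEquiv.ofBijective σ hbij, fun i hi => ?_⟩
  show ((σ ⟨Y.coeff i, hi⟩ : LL F Y) : EE k) = (act M g Y).coeff i
  by_cases hi' : i < M.natDegree
  · have h5 := hσ (MvPolynomial.X ⟨i, hi'⟩)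
    rw [hφ₁, hφ₂, MvPolynomial.aeval_X, MvPolynomial.aeval_X] at h5
    exact congrArg Subtype.val h5
  · have h6 : Y.coeff i = 0 := Polynomial.coeff_eq_zero_of_degree_lt
      (hdeg.trans_le (Polynomial.degree_le_of_natDegree_le (not_lt.1 hi')))
    have h7 : (act M g Y).coeff i = 0 := Polynomial.coeff_eq_zero_of_degree_lt
      ((hEVA M hM hm (EE k) (xx F k) Y g hdeg).1.trans_le
        (Polynomial.degree_le_of_natDegree_le (not_lt.1 hi')))
    rw [h7]
    have h8 : (⟨Y.coeff i, hi⟩ : LL F Y) = 0 := Subtype.ext h6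
    rw [h8, map_zero]
    rfl

theorem hgl (M : F[X]) (Y : (EE k)[X]) (hM : M.Monic) (hm : 1 ≤ M.natDegree)
    (hY : Good (k := k) M Y) (hFDL : S_FDL F Y) (hNOR : S_NOR F Y) (hSEP : S_SEP F Y)
    (hTOR : S_TOR F) (hACT : S_ACT F) (hEVA : S_EVA F k) : S_HGL M Y := by
  have hF : FiniteDimensional (KK F k) (LL F Y) := hFDL
  obtain ⟨YL, hYL⟩ := HGL_lift (F := F) Y
  have hYLi : ∀ i (hi : Y.coeff i ∈ LL F Y), YL.coeff i = ⟨Y.coeff i, hi⟩ := by
    intro i hi
    apply Subtype.ext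
    have : ((YL.map (algebraMap (LL F Y) (EE k))).coeff i) = Y.coeff i := by rw [hYL]
    rw [Polynomial.coeff_map] at this
    exact this
  have part1 : ∀ τ : LL F Y ≃ₐ[KK F k] LL F Y, ∃ g ∈ HH M Y, ∀ i (hi : Y.coeff i ∈ LL F Y),
      ((τ ⟨Y.coeff i, hi⟩ : LL F Y) : EE k) = (act M g Y).coeff i := by
    intro τ
    have hs := HGL_move hM hY.sol hYL τ
    obtain ⟨g, hg1, hg2, hg3⟩ := hTOR M hM hm (EE k) (xx F k) Y _ hY.sol hs.deg hs.eq
    refine ⟨g, mem_HH.2 ⟨hg1, hg3 hs.cop, fun P hP => ?_⟩, fun i hi => ?_⟩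
    · rw [← hg2]
      exact HGL_rel hYL τ P hP
    · rw [← hg2, Polynomial.coeff_map, Polynomial.coeff_map, hYLi i hi]
      rfl
  have part2 : ∀ g ∈ HH M Y, ∃ τ : LL F Y ≃ₐ[KK F k] LL F Y, ∀ i (hi : Y.coeff i ∈ LL F Y),
      ((τ ⟨Y.coeff i, hi⟩ : LL F Y) : EE k) = (act M g Y).coeff i :=
    fun g hg => HGL_aut hM hm hEVA hY.sol.deg hF hg
  refine ⟨part1, part2, ?_⟩
  have hGal : IsGalois (KK F k) (LL F Y) := { to_isSeparable := hSEP, to_normal := hNOR }
  have hcard : Nat.card (LL F Y ≃ₐ[KK F k] LL F Y) = Module.finrank (KK F k) (LL F Y) :=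
    IsGalois.card_aut_eq_finrank _ _
  choose f hf1 hf2 using part1
  have hbij : Function.Bijective (fun τ : LL F Y ≃ₐ[KK F k] LL F Y =>
      (⟨f τ, hf1 τ⟩ : {g // g ∈ HH M Y})) := by
    constructor
    · intro τ τ' h
      have h1 : f τ = f τ' := congrArg Subtype.val h
      have h2 : ∀ i (hi : Y.coeff i ∈ LL F Y), τ ⟨Y.coeff i, hi⟩ = τ' ⟨Y.coeff i, hi⟩ := by
        intro i hi
        apply Subtype.ext
        rw [hf2 τ i hi, hf2 τ' i hi, h1]
      have h3 : (τ : LL F Y →ₐ[KK F k] LL F Y) = (τ' : LL F Y →ₐ[KK F k] LL F Y) := by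
        have hLL : LL F Y = IntermediateField.adjoin (KK F k) {z | ∃ i, z = Y.coeff i} := rfl
        refine IntermediateField.algHom_ext_of_eq_adjoin _ hLL ?_
        rintro z ⟨i, rfl⟩
        exact h2 i _
      ext z
      exact congrArg Subtype.val (DFunLike.congr_fun h3 z)
    · rintro ⟨g, hg⟩
      obtain ⟨τ, hτ⟩ := part2 g hg
      refine ⟨τ, Subtype.ext ?_⟩
      have h1 : act M (f τ) Y = act M g Y := by
        ext i
        rw [← hf2 τ i (HGL_mem Y i), ← hτ i (HGL_mem Y i)]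
      have h2 : M ∣ f τ - g := ((hACT M hM hm (EE k) (xx F k) Y hY.sol).2.2.1 _ _).1 h1
      have d1 := (mem_HH.1 (hf1 τ)).1
      have d2 := (mem_HH.1 hg).1
      have h3 : f τ - g = 0 := by
        refine Polynomial.eq_zero_of_dvd_of_degree_lt h2 ?_
        exact (Polynomial.degree_sub_le _ _).trans_lt (max_lt d1 d2)
      exact sub_eq_zero.1 h3
  rw [← hcard, Nat.card_eq_of_bijective _ hbij, Nat.card_eq_fintype_card, Fintype.card_coe]

end HGL

end Pool.RN
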